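import Pool.Agent.Lib.MP_962d12_co.Hole
import Pool.Agent.Lib.MP_962d12_co.Certs

set_option autoImplicit false

namespace Pool.Agent.Results.MP_962d12_co.Classification

/-- `ω = e^{iπ/3}`. -/
noncomputable def omega : ℂ := Complex.exp (Complex.I * (Real.pi : ℂ) / 3)

/-- The triangular lattice `T_d = {d (a + b ω) : a, b ∈ ℤ}`. -/
def triLattice (d : ℝ) : Set ℂ := {z | ∃ a b : ℤ, z = (d : ℂ) * ((a : ℂ) + (b : ℂ) * omega)}

/-- `T_d` is coverable: there is a countable family of closed unit disks with pairwise disjoint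
interiors whose union contains `T_d`. -/
def Coverable (d : ℝ) : Prop :=
  ∃ (ι : Type) (_ : Countable ι) (c : ι → ℂ),
    (Pairwise fun i j => Disjoint (interior (Metric.closedBall (c i) 1))
      (interior (Metric.closedBall (c j) 1))) ∧
    triLattice d ⊆ ⋃ i, Metric.closedBall (c i) 1

/-- the values of `d²` for which `T_d` turns out to be coverable, up to the set `undecided` -/
def coverableRange : Set ℝ :=
  {1 / 13} ∪ Set.Icc (4 / 37) (1 / 9) ∪ Set.Icc (4 / 31) (1 / 7) ∪ Set.Icc (4 / 27) (3 / 19) ∪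
    {4 / 21} ∪ Set.Icc (4 / 19) (25 / 91) ∪ Set.Icc (4 / 13) (3 / 7) ∪
    Set.Icc (16 / 37) (25 / 49) ∪ Set.Ici (16 / 31)

/-- thirteen short intervals of values of `d²` that are left undecided -/
def undecided : Set ℝ :=
  Set.Ico (4 / 55) (1 / 13) ∪ Set.Icc (2 / 21) (3 / 31) ∪ Set.Icc (2 / 17) (16 / 133) ∪
    Set.Icc (4 / 33) (27 / 217) ∪ Set.Icc (1 / 8) (121 / 961) ∪ Set.Icc (1 / 6) (289 / 1729) ∪
    Set.Icc (4 / 23) (64 / 361) ∪ Set.Ico (2 / 11) (4 / 21) ∪ Set.Icc (1 / 5) (27 / 133) ∪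
    Set.Ioc (25 / 91) (48 / 169) ∪ Set.Ico (2 / 7) (4 / 13) ∪ Set.Ioo (3 / 7) (16 / 37) ∪
    Set.Ioo (25 / 49) (16 / 31)

lemma omega_eq : omega = (1 / 2 : ℝ) + ((Real.sqrt 3 / 2 : ℝ) : ℂ) * Complex.I := by
  unfold omega
  have h : Complex.I * (Real.pi : ℂ) / 3 = ((Real.pi / 3 : ℝ) : ℂ) * Complex.I := by
    push_cast; ring
  rw [h, Complex.exp_mul_I, ← Complex.ofReal_cos, ← Complex.ofReal_sin,
    Real.cos_pi_div_three, Real.sin_pi_div_three]

/-- the quadratic form -/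
def N (x y : ℤ) : ℤ := x * x + x * y + y * y

lemma normSq_lin (x y : ℝ) :
    Complex.normSq ((x : ℂ) + (y : ℂ) * omega) = x ^ 2 + x * y + y ^ 2 := by
  have h3 : Real.sqrt 3 * Real.sqrt 3 = 3 := Real.mul_self_sqrt (by norm_num)
  rw [omega_eq, Complex.normSq_apply]
  simp
  nlinarith

lemma norm_sq_lin (x y : ℝ) : ‖(x : ℂ) + (y : ℂ) * omega‖ ^ 2 = x ^ 2 + x * y + y ^ 2 := by
  rw [← normSq_lin, Complex.normSq_eq_norm_sq]

lemma coverable_of (D K M U1 U2 V1 V2 C1 C2 : ℤ) (d : ℝ) (hd : 0 < d) (hD : 0 < D)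
    (hcov : ∀ a b : ℤ, ∃ s t : ℤ, N (D * a - C1 - s * U1 - t * V1) (D * b - C2 - s * U2 - t * V2) ≤ K)
    (hsep : ∀ s t : ℤ, (s ≠ 0 ∨ t ≠ 0) → M ≤ N (s * U1 + t * V1) (s * U2 + t * V2))
    (h1 : d ^ 2 * K ≤ D ^ 2) (h2 : 4 * D ^ 2 ≤ d ^ 2 * M) : Coverable d := by
  have hDr : (0 : ℝ) < D := by exact_mod_cast hD
  let c : ℤ × ℤ → ℂ := fun p => (d / D : ℝ) *
    (((C1 + p.1 * U1 + p.2 * V1 : ℝ) : ℂ) + ((C2 + p.1 * U2 + p.2 * V2 : ℝ) : ℂ) * omega)
  refine ⟨ℤ × ℤ, inferInstance, c, ?_, ?_⟩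
  · intro p q hpq
    rw [interior_closedBall _ one_ne_zero, interior_closedBall _ one_ne_zero]
    apply Metric.ball_disjoint_ball
    rw [dist_eq_norm]
    have hne : p.1 - q.1 ≠ 0 ∨ p.2 - q.2 ≠ 0 := by
      by_contra h
      push Not at h
      exact hpq (Prod.ext (by omega) (by omega))
    have hM := hsep _ _ hne
    have hMr : (M : ℝ) ≤ ((p.1 - q.1) * U1 + (p.2 - q.2) * V1 : ℝ) ^ 2 +
        ((p.1 - q.1) * U1 + (p.2 - q.2) * V1 : ℝ) * ((p.1 - q.1) * U2 + (p.2 - q.2) * V2 : ℝ) +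
        ((p.1 - q.1) * U2 + (p.2 - q.2) * V2 : ℝ) ^ 2 := by
      have : (M : ℝ) ≤ ((N ((p.1 - q.1) * U1 + (p.2 - q.2) * V1)
        ((p.1 - q.1) * U2 + (p.2 - q.2) * V2) : ℤ) : ℝ) := by exact_mod_cast hM
      refine this.trans (le_of_eq ?_)
      unfold N; push_cast; ring
    have e : c p - c q = ((d / D : ℝ) : ℂ) *
        ((((p.1 - q.1) * U1 + (p.2 - q.2) * V1 : ℝ) : ℂ) +
          (((p.1 - q.1) * U2 + (p.2 - q.2) * V2 : ℝ) : ℂ) * omega) := by
      simp only [c]; push_cast; ring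
    have hsq : (1 + 1 : ℝ) ^ 2 ≤ ‖c p - c q‖ ^ 2 := by
      rw [e, norm_mul, mul_pow, norm_sq_lin, Complex.norm_real, Real.norm_eq_abs, sq_abs, div_pow]
      rw [div_mul_eq_mul_div, le_div_iff₀ (by positivity)]
      calc (1 + 1 : ℝ) ^ 2 * (D : ℝ) ^ 2 = 4 * D ^ 2 := by ring
        _ ≤ d ^ 2 * M := h2
        _ ≤ _ := mul_le_mul_of_nonneg_left hMr (by positivity)
    exact (abs_le_of_sq_le_sq' hsq (norm_nonneg _)).2
  · rintro z ⟨a, b, rfl⟩
    obtain ⟨s, t, hst⟩ := hcov a b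
    refine Set.mem_iUnion.mpr ⟨(s, t), ?_⟩
    rw [Metric.mem_closedBall, dist_eq_norm]
    have e : (d : ℂ) * ((a : ℂ) + (b : ℂ) * omega) - c (s, t) = ((d / D : ℝ) : ℂ) *
        (((D * a - C1 - s * U1 - t * V1 : ℝ) : ℂ) +
          ((D * b - C2 - s * U2 - t * V2 : ℝ) : ℂ) * omega) := by
      have hDc : (D : ℂ) ≠ 0 := by exact_mod_cast hDr.ne'
      simp only [c]; push_cast; field_simp; ring
    have hsq : ‖(d : ℂ) * ((a : ℂ) + (b : ℂ) * omega) - c (s, t)‖ ^ 2 ≤ 1 ^ 2 := by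
      rw [e, norm_mul, mul_pow, norm_sq_lin, Complex.norm_real, Real.norm_eq_abs, sq_abs, div_pow]
      rw [div_mul_eq_mul_div, div_le_iff₀ (by positivity)]
      have hK : ((D * a - C1 - s * U1 - t * V1 : ℝ)) ^ 2 +
          (D * a - C1 - s * U1 - t * V1 : ℝ) * (D * b - C2 - s * U2 - t * V2 : ℝ) +
          (D * b - C2 - s * U2 - t * V2 : ℝ) ^ 2 ≤ K := by
        have : ((N (D * a - C1 - s * U1 - t * V1) (D * b - C2 - s * U2 - t * V2) : ℤ) : ℝ) ≤ K := by
          exact_mod_cast hst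
        refine le_trans (le_of_eq ?_) this
        unfold N; push_cast; ring
      calc _ ≤ d ^ 2 * K := mul_le_mul_of_nonneg_left hK (by positivity)
        _ ≤ D ^ 2 := h1
        _ = _ := by ring
    exact (abs_le_of_sq_le_sq' hsq zero_le_one).2

/-- finite check of the covering condition on residues modulo `Q` -/
def chk (D K U1 U2 V1 V2 C1 C2 : ℤ) (Q : ℕ) : Bool :=
  let det := U1 * V2 - U2 * V1
  (List.range Q).all fun a => (List.range Q).all fun b =>
    let x := D * (a : ℤ) - C1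
    let y := D * (b : ℤ) - C2
    let s0 := (2 * (x * V2 - y * V1) + det) / (2 * det)
    let t0 := (2 * (U1 * y - U2 * x) + det) / (2 * det)
    ([-1, 0, 1] : List ℤ).any fun i => ([-1, 0, 1] : List ℤ).any fun j =>
      decide (N (x - (s0 + i) * U1 - (t0 + j) * V1) (y - (s0 + i) * U2 - (t0 + j) * V2) ≤ K)

lemma cov_of_chk (D K U1 U2 V1 V2 C1 C2 : ℤ) (Q : ℕ) (hQ : 0 < Q) (s1 t1 s2 t2 : ℤ)
    (e1 : D * Q = s1 * U1 + t1 * V1) (e2 : 0 = s1 * U2 + t1 * V2)
    (e3 : 0 = s2 * U1 + t2 * V1) (e4 : D * Q = s2 * U2 + t2 * V2)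
    (hc : chk D K U1 U2 V1 V2 C1 C2 Q = true) :
    ∀ a b : ℤ, ∃ s t : ℤ, N (D * a - C1 - s * U1 - t * V1) (D * b - C2 - s * U2 - t * V2) ≤ K := by
  intro a b
  have hQ' : (0 : ℤ) < Q := by exact_mod_cast hQ
  have ha0 := Int.emod_nonneg a hQ'.ne'
  have ha1 := Int.emod_lt_of_pos a hQ'
  have hb0 := Int.emod_nonneg b hQ'.ne'
  have hb1 := Int.emod_lt_of_pos b hQ'
  simp only [chk, List.all_eq_true, List.any_eq_true, List.mem_range, decide_eq_true_eq] at hc
  obtain ⟨i, -, j, -, h⟩ := hc (a % Q).toNat (by omega) (b % Q).toNat (by omega)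
  rw [Int.toNat_of_nonneg ha0, Int.toNat_of_nonneg hb0] at h
  set s0 := (2 * ((D * (a % ↑Q) - C1) * V2 - (D * (b % ↑Q) - C2) * V1) + (U1 * V2 - U2 * V1)) /
    (2 * (U1 * V2 - U2 * V1)) with hs0
  set t0 := (2 * (U1 * (D * (b % ↑Q) - C2) - U2 * (D * (a % ↑Q) - C1)) + (U1 * V2 - U2 * V1)) /
    (2 * (U1 * V2 - U2 * V1)) with ht0
  refine ⟨s0 + i + s1 * (a / Q) + s2 * (b / Q), t0 + j + t1 * (a / Q) + t2 * (b / Q), ?_⟩
  have ea : a = Q * (a / Q) + a % Q := (Int.mul_ediv_add_emod a Q).symm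
  have eb : b = Q * (b / Q) + b % Q := (Int.mul_ediv_add_emod b Q).symm
  have g1 : D * a - C1 - (s0 + i + s1 * (a / Q) + s2 * (b / Q)) * U1 -
      (t0 + j + t1 * (a / Q) + t2 * (b / Q)) * V1 =
      D * (a % ↑Q) - C1 - (s0 + i) * U1 - (t0 + j) * V1 := by
    have : D * a = D * Q * (a / Q) + D * (a % Q) := by
      conv_lhs => rw [ea]
      ring
    rw [this, e1]
    linear_combination (-(b / (Q : ℤ))) * e3.symm
  have g2 : D * b - C2 - (s0 + i + s1 * (a / Q) + s2 * (b / Q)) * U2 -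
      (t0 + j + t1 * (a / Q) + t2 * (b / Q)) * V2 =
      D * (b % ↑Q) - C2 - (s0 + i) * U2 - (t0 + j) * V2 := by
    have : D * b = D * Q * (b / Q) + D * (b % Q) := by
      conv_lhs => rw [eb]
      ring
    rw [this, e4]
    linear_combination (-(a / (Q : ℤ))) * e2.symm
  rw [g1, g2]
  exact h

lemma sep_of_reduced (U1 U2 V1 V2 B C M : ℤ) (hA : N U1 U2 = M)
    (hB : 2 * U1 * V1 + 2 * U2 * V2 + U1 * V2 + U2 * V1 = B) (hC : N V1 V2 = C)
    (hM : 0 ≤ M) (h1 : |B| ≤ M) (h2 : M ≤ C) :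
    ∀ s t : ℤ, (s ≠ 0 ∨ t ≠ 0) → M ≤ N (s * U1 + t * V1) (s * U2 + t * V2) := by
  intro s t hst
  have e : N (s * U1 + t * V1) (s * U2 + t * V2) = M * (s * s) + B * (s * t) + C * (t * t) := by
    rw [← hA, ← hB, ← hC]; unfold N; ring
  rw [e]
  have hb := abs_le.mp h1
  have hs2 : 0 ≤ s * s := mul_self_nonneg s
  have ht2 : 0 ≤ t * t := mul_self_nonneg t
  by_cases hs : s = 0
  · subst hs
    have ht : t ≠ 0 := by simpa using hst
    have : 1 ≤ t * t := by
      have := mul_self_pos.mpr ht; omega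
    nlinarith
  by_cases ht : t = 0
  · subst ht
    have : 1 ≤ s * s := by
      have := mul_self_pos.mpr hs; omega
    nlinarith
  -- both nonzero
  have hs1 : 1 ≤ |s| := Int.one_le_abs hs
  have ht1 : 1 ≤ |t| := Int.one_le_abs ht
  have hst' : |s * t| = |s| * |t| := abs_mul s t
  have hss : s * s = |s| * |s| := (abs_mul_abs_self s).symm
  have htt : t * t = |t| * |t| := (abs_mul_abs_self t).symm
  have hBst : -(M * (|s| * |t|)) ≤ B * (s * t) := by
    have : |B * (s * t)| ≤ M * (|s| * |t|) := by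
      rw [abs_mul, hst']
      exact mul_le_mul_of_nonneg_right h1 (by positivity)
    exact (abs_le.mp this).1
  have h3 : M * (|t| * |t|) ≤ C * (t * t) := by
    rw [htt]; exact mul_le_mul_of_nonneg_right h2 (by positivity)
  have h4 : 1 ≤ |s| * |s| - |s| * |t| + |t| * |t| := by nlinarith [mul_self_nonneg (|s| - |t|)]
  have h5 : M * 1 ≤ M * (|s| * |s| - |s| * |t| + |t| * |t|) := mul_le_mul_of_nonneg_left h4 hM
  rw [hss]
  nlinarith

/-- one family: `4 D² / M ≤ d² ≤ D² / K`. -/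
lemma family (D K U1 U2 V1 V2 C1 C2 B C M : ℤ) (Q : ℕ) (hQ : 0 < Q) (s1 t1 s2 t2 : ℤ)
    (e1 : D * Q = s1 * U1 + t1 * V1) (e2 : 0 = s1 * U2 + t1 * V2)
    (e3 : 0 = s2 * U1 + t2 * V1) (e4 : D * Q = s2 * U2 + t2 * V2)
    (hc : chk D K U1 U2 V1 V2 C1 C2 Q = true) (hA : N U1 U2 = M)
    (hB : 2 * U1 * V1 + 2 * U2 * V2 + U1 * V2 + U2 * V1 = B) (hC : N V1 V2 = C)
    (hM : 0 ≤ M) (h1 : |B| ≤ M) (h2 : M ≤ C) (hD : 0 < D)
    (d : ℝ) (hd : 0 < d) (hl : 4 * (D : ℝ) ^ 2 ≤ d ^ 2 * M) (hu : d ^ 2 * (K : ℝ) ≤ D ^ 2) :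
    Coverable d :=
  coverable_of D K M U1 U2 V1 V2 C1 C2 d hd hD
    (cov_of_chk D K U1 U2 V1 V2 C1 C2 Q hQ s1 t1 s2 t2 e1 e2 e3 e4 hc)
    (sep_of_reduced U1 U2 V1 V2 B C M hA hB hC hM h1 h2) hu hl

lemma fam_one (d : ℝ) (hd : 0 < d) (hl : 4 / 1 ≤ d ^ 2) (_hu : d ^ 2 * 0 ≤ 1) :
    Coverable d :=
  family 1 0 1 0 0 1 0 0 1 1 1 1 (by norm_num) 1 0 0 1
    (by norm_num) (by norm_num) (by norm_num) (by norm_num) (by decide +kernel) (by decide) (by decide)
    (by decide) (by decide) (by decide) (by decide) (by decide) d hd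
    (by push_cast; linarith) (by push_cast; linarith)

lemma fam_half (d : ℝ) (hd : 0 < d) (hl : 16 / 7 ≤ d ^ 2) (hu : d ^ 2 * 1 ≤ 4) :
    Coverable d :=
  family 2 1 3 (-2) 1 2 0 1 2 7 7 4 (by norm_num) 2 2 (-1) 3
    (by norm_num) (by norm_num) (by norm_num) (by norm_num) (by decide +kernel) (by decide) (by decide)
    (by decide) (by decide) (by decide) (by decide) (by decide) d hd
    (by push_cast; linarith) (by push_cast; linarith)

lemma fam_k3 (d : ℝ) (hd : 0 < d) (hl : 36 / 27 ≤ d ^ 2) (hu : d ^ 2 * 3 ≤ 9) :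
    Coverable d :=
  family 3 3 6 (-3) 3 3 1 1 27 27 27 3 (by norm_num) 1 1 (-1) 2
    (by norm_num) (by norm_num) (by norm_num) (by norm_num) (by decide +kernel) (by decide) (by decide)
    (by decide) (by decide) (by decide) (by decide) (by decide) d hd
    (by push_cast; linarith) (by push_cast; linarith)

lemma fam_k4 (d : ℝ) (hd : 0 < d) (hl : 16 / 16 ≤ d ^ 2) (hu : d ^ 2 * 3 ≤ 4) :
    Coverable d :=
  family 2 3 4 0 0 4 1 0 16 16 16 2 (by norm_num) 1 0 0 1
    (by norm_num) (by norm_num) (by norm_num) (by norm_num) (by decide +kernel) (by decide) (by decide)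
    (by decide) (by decide) (by decide) (by decide) (by decide) d hd
    (by push_cast; linarith) (by push_cast; linarith)

lemma fam_k7 (d : ℝ) (hd : 0 < d) (hl : 4 / 7 ≤ d ^ 2) (hu : d ^ 2 * 1 ≤ 1) :
    Coverable d :=
  family 1 1 2 1 (-1) 3 0 0 7 7 7 7 (by norm_num) 3 (-1) 1 2
    (by norm_num) (by norm_num) (by norm_num) (by norm_num) (by decide +kernel) (by decide) (by decide)
    (by decide) (by decide) (by decide) (by decide) (by decide) d hd
    (by push_cast; linarith) (by push_cast; linarith)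

lemma fam_k775 (d : ℝ) (hd : 0 < d) (hl : 16 / 31 ≤ d ^ 2) (hu : d ^ 2 * 7 ≤ 4) :
    Coverable d :=
  family 2 7 6 (-1) 1 5 0 0 31 31 31 31 (by norm_num) 10 2 (-2) 12
    (by norm_num) (by norm_num) (by norm_num) (by norm_num) (by decide +kernel) (by decide) (by decide)
    (by decide) (by decide) (by decide) (by decide) (by decide) d hd
    (by push_cast; linarith) (by push_cast; linarith)

lemma fam_k9 (d : ℝ) (hd : 0 < d) (hl : 100 / 225 ≤ d ^ 2) (hu : d ^ 2 * 49 ≤ 25) :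
    Coverable d :=
  family 5 49 15 0 0 15 2 0 225 225 225 3 (by norm_num) 1 0 0 1
    (by norm_num) (by norm_num) (by norm_num) (by norm_num) (by decide +kernel) (by decide) (by decide)
    (by decide) (by decide) (by decide) (by decide) (by decide) d hd
    (by push_cast; linarith) (by push_cast; linarith)

lemma fam_k10 (d : ℝ) (hd : 0 < d) (hl : 16 / 37 ≤ d ^ 2) (hu : d ^ 2 * 9 ≤ 4) :
    Coverable d :=
  family 2 9 7 (-4) 3 4 0 1 26 37 37 20 (by norm_num) 4 4 (-3) 7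
    (by norm_num) (by norm_num) (by norm_num) (by norm_num) (by decide +kernel) (by decide) (by decide)
    (by decide) (by decide) (by decide) (by decide) (by decide) d hd
    (by push_cast; linarith) (by push_cast; linarith)

lemma fam_k12 (d : ℝ) (hd : 0 < d) (hl : 36 / 108 ≤ d ^ 2) (hu : d ^ 2 * 21 ≤ 9) :
    Coverable d :=
  family 3 21 12 (-6) 6 6 1 1 108 108 108 6 (by norm_num) 1 1 (-1) 2
    (by norm_num) (by norm_num) (by norm_num) (by norm_num) (by decide +kernel) (by decide) (by decide)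
    (by decide) (by decide) (by decide) (by decide) (by decide) d hd
    (by push_cast; linarith) (by push_cast; linarith)

lemma fam_k13 (d : ℝ) (hd : 0 < d) (hl : 4 / 13 ≤ d ^ 2) (hu : d ^ 2 * 3 ≤ 1) :
    Coverable d :=
  family 1 3 3 1 (-1) 4 0 0 13 13 13 13 (by norm_num) 4 (-1) 1 3
    (by norm_num) (by norm_num) (by norm_num) (by norm_num) (by decide +kernel) (by decide) (by decide)
    (by decide) (by decide) (by decide) (by decide) (by decide) d hd
    (by push_cast; linarith) (by push_cast; linarith)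

lemma fam_k16 (d : ℝ) (hd : 0 < d) (hl : 100 / 400 ≤ d ^ 2) (hu : d ^ 2 * 91 ≤ 25) :
    Coverable d :=
  family 5 91 20 0 0 20 1 0 400 400 400 4 (by norm_num) 1 0 0 1
    (by norm_num) (by norm_num) (by norm_num) (by norm_num) (by decide +kernel) (by decide) (by decide)
    (by decide) (by decide) (by decide) (by decide) (by decide) d hd
    (by push_cast; linarith) (by push_cast; linarith)

lemma fam_k19 (d : ℝ) (hd : 0 < d) (hl : 4 / 19 ≤ d ^ 2) (hu : d ^ 2 * 4 ≤ 1) :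
    Coverable d :=
  family 1 4 3 2 (-2) 5 0 0 19 19 19 19 (by norm_num) 5 (-2) 2 3
    (by norm_num) (by norm_num) (by norm_num) (by norm_num) (by decide +kernel) (by decide) (by decide)
    (by decide) (by decide) (by decide) (by decide) (by decide) d hd
    (by push_cast; linarith) (by push_cast; linarith)

lemma fam_k21 (d : ℝ) (hd : 0 < d) (hl : 16 / 84 ≤ d ^ 2) (hu : d ^ 2 * 21 ≤ 4) :
    Coverable d :=
  family 2 21 8 2 (-2) 10 1 0 84 84 84 21 (by norm_num) 5 (-1) 1 4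
    (by norm_num) (by norm_num) (by norm_num) (by norm_num) (by decide +kernel) (by decide) (by decide)
    (by decide) (by decide) (by decide) (by decide) (by decide) d hd
    (by push_cast; linarith) (by push_cast; linarith)

lemma fam_k27 (d : ℝ) (hd : 0 < d) (hl : 36 / 243 ≤ d ^ 2) (hu : d ^ 2 * 57 ≤ 9) :
    Coverable d :=
  family 3 57 18 (-9) 9 9 1 1 243 243 243 9 (by norm_num) 1 1 (-1) 2
    (by norm_num) (by norm_num) (by norm_num) (by norm_num) (by decide +kernel) (by decide) (by decide)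
    (by decide) (by decide) (by decide) (by decide) (by decide) d hd
    (by push_cast; linarith) (by push_cast; linarith)

lemma fam_k31 (d : ℝ) (hd : 0 < d) (hl : 4 / 31 ≤ d ^ 2) (hu : d ^ 2 * 7 ≤ 1) :
    Coverable d :=
  family 1 7 5 1 (-1) 6 0 0 31 31 31 31 (by norm_num) 6 (-1) 1 5
    (by norm_num) (by norm_num) (by norm_num) (by norm_num) (by decide +kernel) (by decide) (by decide)
    (by decide) (by decide) (by decide) (by decide) (by decide) d hd
    (by push_cast; linarith) (by push_cast; linarith)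

lemma fam_k37 (d : ℝ) (hd : 0 < d) (hl : 4 / 37 ≤ d ^ 2) (hu : d ^ 2 * 9 ≤ 1) :
    Coverable d :=
  family 1 9 4 3 (-3) 7 0 0 37 37 37 37 (by norm_num) 7 (-3) 3 4
    (by norm_num) (by norm_num) (by norm_num) (by norm_num) (by decide +kernel) (by decide) (by decide)
    (by decide) (by decide) (by decide) (by decide) (by decide) d hd
    (by push_cast; linarith) (by push_cast; linarith)

lemma fam_k52 (d : ℝ) (hd : 0 < d) (hl : 4 / 52 ≤ d ^ 2) (hu : d ^ 2 * 13 ≤ 1) :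
    Coverable d :=
  family 1 13 6 2 (-2) 8 0 0 52 52 52 26 (by norm_num) 4 (-1) 1 3
    (by norm_num) (by norm_num) (by norm_num) (by norm_num) (by decide +kernel) (by decide) (by decide)
    (by decide) (by decide) (by decide) (by decide) (by decide) d hd
    (by push_cast; linarith) (by push_cast; linarith)

lemma coverable_pos (d : ℝ) (hd : 0 < d)
    (h : 16 / 31 ≤ d ^ 2 ∨ (16 / 37 ≤ d ^ 2 ∧ d ^ 2 ≤ 25 / 49) ∨ (4 / 13 ≤ d ^ 2 ∧ d ^ 2 ≤ 3 / 7) ∨
      (4 / 19 ≤ d ^ 2 ∧ d ^ 2 ≤ 25 / 91) ∨ d ^ 2 = 4 / 21 ∨ (4 / 27 ≤ d ^ 2 ∧ d ^ 2 ≤ 3 / 19) ∨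
      (4 / 31 ≤ d ^ 2 ∧ d ^ 2 ≤ 1 / 7) ∨ (4 / 37 ≤ d ^ 2 ∧ d ^ 2 ≤ 1 / 9) ∨ d ^ 2 = 1 / 13) :
    Coverable d := by
  rcases h with h | h | h | h | h | h | h | h | h
  · by_cases h1 : 4 ≤ d ^ 2
    · exact fam_one d hd (by linarith) (by linarith)
    by_cases h2 : 3 ≤ d ^ 2
    · exact fam_half d hd (by linarith) (by linarith)
    by_cases h3 : 4 / 3 ≤ d ^ 2
    · exact fam_k3 d hd (by linarith) (by linarith)
    by_cases h4 : 1 ≤ d ^ 2
    · exact fam_k4 d hd (by linarith) (by linarith)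
    by_cases h5 : 4 / 7 ≤ d ^ 2
    · exact fam_k7 d hd (by linarith) (by linarith)
    · exact fam_k775 d hd (by linarith) (by linarith)
  · by_cases h1 : 4 / 9 ≤ d ^ 2
    · exact fam_k9 d hd (by linarith) (by linarith)
    · exact fam_k10 d hd (by linarith) (by linarith)
  · by_cases h1 : 1 / 3 ≤ d ^ 2
    · exact fam_k12 d hd (by linarith) (by linarith)
    · exact fam_k13 d hd (by linarith) (by linarith)
  · by_cases h1 : 1 / 4 ≤ d ^ 2
    · exact fam_k16 d hd (by linarith) (by linarith)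
    · exact fam_k19 d hd (by linarith) (by linarith)
  · exact fam_k21 d hd (by linarith) (by linarith)
  · exact fam_k27 d hd (by linarith) (by linarith)
  · exact fam_k31 d hd (by linarith) (by linarith)
  · exact fam_k37 d hd (by linarith) (by linarith)
  · exact fam_k52 d hd (by linarith) (by linarith)

open Pool.Agent.Lib.MP_962d12_co in
/-- coverability in terms of centres at mutual distance at least `2` -/
lemma Coverable.exists_centres {d : ℝ} (h : Coverable d) :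
    ∃ (ι : Type) (_ : Countable ι) (c : ι → ℂ), (∀ i j, i ≠ j → 2 ≤ ‖c i - c j‖) ∧
      ∀ a b : ℤ, ∃ i, ‖pt d a b - c i‖ ≤ 1 := by
  obtain ⟨ι, hι, c, hdis, hcov⟩ := h
  refine ⟨ι, hι, c, ?_, ?_⟩
  · intro i j hij
    have h1 : Disjoint (interior (Metric.closedBall (c i) 1))
      (interior (Metric.closedBall (c j) 1)) := hdis hij
    rw [interior_closedBall _ one_ne_zero, interior_closedBall _ one_ne_zero,
      disjoint_ball_ball_iff one_pos one_pos, dist_eq_norm] at h1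
    linarith
  · intro a b
    have hmem : pt d a b ∈ triLattice d := by
      refine ⟨a, b, ?_⟩
      rw [omega_eq]
      apply Complex.ext
      · simp [pt]
        left
        ring
      · simp [pt]
    obtain ⟨i, hi⟩ := Set.mem_iUnion.1 (hcov hmem)
    rw [Metric.mem_closedBall, dist_eq_norm] at hi
    exact ⟨i, hi⟩

open Pool.Agent.Lib.MP_962d12_co in
lemma not_coverable_of_disc (K : ℕ) (R : ℝ) (hK : DiscBound K R) (d : ℝ) (hd : 0 < d)
    (h1 : 1 < d ^ 2 * R) (h2 : K * d ^ 2 < 4) : ¬ Coverable d := by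
  intro h
  obtain ⟨ι, hι, c, hc, hcov⟩ := h.exists_centres
  exact not_cover_of_disc K R hK d hd h1 h2 c hc hcov

open Pool.Agent.Lib.MP_962d12_co in
lemma not_coverable_small (d : ℝ) (hd : 0 < d) (h1 : d < 2 - Real.sqrt 3) : ¬ Coverable d := by
  intro h
  obtain ⟨ι, hι, c, hc, hcov⟩ := h.exists_centres
  exact not_cover_small d hd h1 c hc hcov

lemma neg14 (d : ℝ) (hd : 0 < d) (h1 : 48 / 169 < d ^ 2) (h2 : d ^ 2 < 4 / 14) : ¬ Coverable d :=
  not_coverable_of_disc 14 _ Pool.Agent.Lib.MP_962d12_co.disc14 d hd (by push_cast; linarith)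
    (by push_cast; linarith)

lemma neg19 (d : ℝ) (hd : 0 < d) (h1 : 27 / 133 < d ^ 2) (h2 : d ^ 2 < 4 / 19) : ¬ Coverable d :=
  not_coverable_of_disc 19 _ Pool.Agent.Lib.MP_962d12_co.disc19 d hd (by push_cast; linarith)
    (by push_cast; linarith)

lemma neg20 (d : ℝ) (hd : 0 < d) (h1 : 4 / 21 < d ^ 2) (h2 : d ^ 2 < 4 / 20) : ¬ Coverable d :=
  not_coverable_of_disc 20 _ Pool.Agent.Lib.MP_962d12_co.disc20 d hd (by push_cast; linarith)
    (by push_cast; linarith)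

lemma neg22 (d : ℝ) (hd : 0 < d) (h1 : 64 / 361 < d ^ 2) (h2 : d ^ 2 < 4 / 22) : ¬ Coverable d :=
  not_coverable_of_disc 22 _ Pool.Agent.Lib.MP_962d12_co.disc22 d hd (by push_cast; linarith)
    (by push_cast; linarith)

lemma neg23 (d : ℝ) (hd : 0 < d) (h1 : 289 / 1729 < d ^ 2) (h2 : d ^ 2 < 4 / 23) : ¬ Coverable d :=
  not_coverable_of_disc 23 _ Pool.Agent.Lib.MP_962d12_co.disc23 d hd (by push_cast; linarith)
    (by push_cast; linarith)

lemma neg24 (d : ℝ) (hd : 0 < d) (h1 : 27 / 169 < d ^ 2) (h2 : d ^ 2 < 4 / 24) : ¬ Coverable d :=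
  not_coverable_of_disc 24 _ Pool.Agent.Lib.MP_962d12_co.disc24 d hd (by push_cast; linarith)
    (by push_cast; linarith)

lemma neg25 (d : ℝ) (hd : 0 < d) (h1 : 3 / 19 < d ^ 2) (h2 : d ^ 2 < 4 / 25) : ¬ Coverable d :=
  not_coverable_of_disc 25 _ Pool.Agent.Lib.MP_962d12_co.disc25 d hd (by push_cast; linarith)
    (by push_cast; linarith)

lemma neg27 (d : ℝ) (hd : 0 < d) (h1 : 1 / 7 < d ^ 2) (h2 : d ^ 2 < 4 / 27) : ¬ Coverable d :=
  not_coverable_of_disc 27 _ Pool.Agent.Lib.MP_962d12_co.disc27 d hd (by push_cast; linarith)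
    (by push_cast; linarith)

lemma neg31 (d : ℝ) (hd : 0 < d) (h1 : 121 / 961 < d ^ 2) (h2 : d ^ 2 < 4 / 31) : ¬ Coverable d :=
  not_coverable_of_disc 31 _ Pool.Agent.Lib.MP_962d12_co.disc31 d hd (by push_cast; linarith)
    (by push_cast; linarith)

lemma neg32 (d : ℝ) (hd : 0 < d) (h1 : 27 / 217 < d ^ 2) (h2 : d ^ 2 < 4 / 32) : ¬ Coverable d :=
  not_coverable_of_disc 32 _ Pool.Agent.Lib.MP_962d12_co.disc32 d hd (by push_cast; linarith)
    (by push_cast; linarith)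

lemma neg33 (d : ℝ) (hd : 0 < d) (h1 : 16 / 133 < d ^ 2) (h2 : d ^ 2 < 4 / 33) : ¬ Coverable d :=
  not_coverable_of_disc 33 _ Pool.Agent.Lib.MP_962d12_co.disc33 d hd (by push_cast; linarith)
    (by push_cast; linarith)

lemma neg34 (d : ℝ) (hd : 0 < d) (h1 : 1 / 9 < d ^ 2) (h2 : d ^ 2 < 4 / 34) : ¬ Coverable d :=
  not_coverable_of_disc 34 _ Pool.Agent.Lib.MP_962d12_co.disc34 d hd (by push_cast; linarith)
    (by push_cast; linarith)

lemma neg37 (d : ℝ) (hd : 0 < d) (h1 : 4 / 39 < d ^ 2) (h2 : d ^ 2 < 4 / 37) : ¬ Coverable d :=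
  not_coverable_of_disc 37 _ Pool.Agent.Lib.MP_962d12_co.disc37 d hd (by push_cast; linarith)
    (by push_cast; linarith)

lemma neg38 (d : ℝ) (hd : 0 < d) (h1 : 2187 / 21793 < d ^ 2) (h2 : d ^ 2 < 4 / 38) : ¬ Coverable d :=
  not_coverable_of_disc 38 _ Pool.Agent.Lib.MP_962d12_co.disc38 d hd (by push_cast; linarith)
    (by push_cast; linarith)

lemma neg39 (d : ℝ) (hd : 0 < d) (h1 : 48 / 481 < d ^ 2) (h2 : d ^ 2 < 4 / 39) : ¬ Coverable d :=
  not_coverable_of_disc 39 _ Pool.Agent.Lib.MP_962d12_co.disc39 d hd (by push_cast; linarith)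
    (by push_cast; linarith)

lemma neg40 (d : ℝ) (hd : 0 < d) (h1 : 3 / 31 < d ^ 2) (h2 : d ^ 2 < 4 / 40) : ¬ Coverable d :=
  not_coverable_of_disc 40 _ Pool.Agent.Lib.MP_962d12_co.disc40 d hd (by push_cast; linarith)
    (by push_cast; linarith)

lemma neg42 (d : ℝ) (hd : 0 < d) (h1 : 841 / 9331 < d ^ 2) (h2 : d ^ 2 < 4 / 42) : ¬ Coverable d :=
  not_coverable_of_disc 42 _ Pool.Agent.Lib.MP_962d12_co.disc42 d hd (by push_cast; linarith)
    (by push_cast; linarith)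

lemma neg44 (d : ℝ) (hd : 0 < d) (h1 : 289 / 3367 < d ^ 2) (h2 : d ^ 2 < 4 / 44) : ¬ Coverable d :=
  not_coverable_of_disc 44 _ Pool.Agent.Lib.MP_962d12_co.disc44 d hd (by push_cast; linarith)
    (by push_cast; linarith)

lemma neg45 (d : ℝ) (hd : 0 < d) (h1 : 4 / 49 < d ^ 2) (h2 : d ^ 2 < 4 / 45) : ¬ Coverable d :=
  not_coverable_of_disc 45 _ Pool.Agent.Lib.MP_962d12_co.disc45 d hd (by push_cast; linarith)
    (by push_cast; linarith)

lemma neg48 (d : ℝ) (hd : 0 < d) (h1 : 64 / 817 < d ^ 2) (h2 : d ^ 2 < 4 / 48) : ¬ Coverable d :=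
  not_coverable_of_disc 48 _ Pool.Agent.Lib.MP_962d12_co.disc48 d hd (by push_cast; linarith)
    (by push_cast; linarith)

lemma neg49 (d : ℝ) (hd : 0 < d) (h1 : 1 / 13 < d ^ 2) (h2 : d ^ 2 < 4 / 49) : ¬ Coverable d :=
  not_coverable_of_disc 49 _ Pool.Agent.Lib.MP_962d12_co.disc49 d hd (by push_cast; linarith)
    (by push_cast; linarith)

lemma neg55 (d : ℝ) (hd : 0 < d) (h1 : 25 / 361 < d ^ 2) (h2 : d ^ 2 < 4 / 55) : ¬ Coverable d :=
  not_coverable_of_disc 55 _ Pool.Agent.Lib.MP_962d12_co.disc55 d hd (by push_cast; linarith)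
    (by push_cast; linarith)

/-- Outside thirteen short intervals of values of `d²`, `T_d` is coverable if and only if `d²` lies
in `coverableRange`. -/
theorem result (d : ℝ) (hd : 0 < d) (hgap : d ^ 2 ∉ undecided) :
    Coverable d ↔ d ^ 2 ∈ coverableRange := by
  have hd2 : 0 < d ^ 2 := by positivity
  simp only [undecided, Set.mem_union, Set.mem_Icc, Set.mem_Ico, Set.mem_Ioc, Set.mem_Ioo,
    not_or, not_and, not_le, not_lt] at hgap
  obtain ⟨⟨⟨⟨⟨⟨⟨⟨⟨⟨⟨⟨g1, g2⟩, g3⟩, g4⟩, g5⟩, g6⟩, g7⟩, g8⟩, g9⟩, g10⟩, g11⟩, g12⟩, g13⟩ := hgap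
  simp only [coverableRange, Set.mem_union, Set.mem_singleton_iff, Set.mem_Icc, Set.mem_Ici]
  constructor
  · intro hC
    by_contra hcon
    simp only [not_or, not_and, not_le] at hcon
    obtain ⟨⟨⟨⟨⟨⟨⟨⟨p1, p2⟩, p3⟩, p4⟩, p5⟩, p6⟩, p7⟩, p8⟩, p9⟩ := hcon
    rcases lt_or_ge (d ^ 2) (4 / 55) with a1 | a1
    · rcases lt_or_ge (25 / 361) (d ^ 2) with b1 | b1
      · exact neg55 d hd b1 a1 hC
      · refine not_coverable_small d hd ?_ hC
        have h3 : Real.sqrt 3 < 26 / 15 + 1 / 1000 := by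
          rw [Real.sqrt_lt' (by norm_num)]; norm_num
        have h5 : d < 264 / 1000 := by
          refine lt_of_pow_lt_pow_left₀ 2 (by norm_num) (lt_of_le_of_lt b1 (by norm_num))
        linarith
    have c1 := lt_of_le_of_ne (g1 a1) (Ne.symm p1)
    rcases lt_or_ge (d ^ 2) (2 / 21) with a2 | a2
    · rcases lt_or_ge (d ^ 2) (4 / 49) with b1 | b1
      · exact neg49 d hd (by linarith) b1 hC
      rcases lt_or_ge (d ^ 2) (4 / 48) with b2 | b2
      · exact neg48 d hd (by linarith) b2 hC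
      rcases lt_or_ge (d ^ 2) (4 / 45) with b3 | b3
      · exact neg45 d hd (by linarith) b3 hC
      rcases lt_or_ge (d ^ 2) (4 / 44) with b4 | b4
      · exact neg44 d hd (by linarith) b4 hC
      · exact neg42 d hd (by linarith) (by linarith) hC
    have c2 := g2 a2
    rcases lt_or_ge (d ^ 2) (4 / 37) with a3 | a3
    · rcases lt_or_ge (d ^ 2) (4 / 40) with b1 | b1
      · exact neg40 d hd (by linarith) b1 hC
      rcases lt_or_ge (d ^ 2) (4 / 39) with b2 | b2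
      · exact neg39 d hd (by linarith) b2 hC
      rcases lt_or_ge (d ^ 2) (4 / 38) with b3 | b3
      · exact neg38 d hd (by linarith) b3 hC
      · exact neg37 d hd (by linarith) (by linarith) hC
    have c3 := p2 a3
    rcases lt_or_ge (d ^ 2) (2 / 17) with a4 | a4
    · exact neg34 d hd (by linarith) (by linarith) hC
    have c4 := g3 a4
    rcases lt_or_ge (d ^ 2) (4 / 33) with a5 | a5
    · exact neg33 d hd (by linarith) (by linarith) hC
    have c5 := g4 a5
    rcases lt_or_ge (d ^ 2) (1 / 8) with a6 | a6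
    · exact neg32 d hd (by linarith) (by linarith) hC
    have c6 := g5 a6
    rcases lt_or_ge (d ^ 2) (4 / 31) with a7 | a7
    · exact neg31 d hd (by linarith) (by linarith) hC
    have c7 := p3 a7
    rcases lt_or_ge (d ^ 2) (4 / 27) with a8 | a8
    · exact neg27 d hd (by linarith) (by linarith) hC
    have c8 := p4 a8
    rcases lt_or_ge (d ^ 2) (1 / 6) with a9 | a9
    · rcases lt_or_ge (d ^ 2) (4 / 25) with b1 | b1
      · exact neg25 d hd (by linarith) b1 hC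
      · exact neg24 d hd (by linarith) (by linarith) hC
    have c9 := g6 a9
    rcases lt_or_ge (d ^ 2) (4 / 23) with a10 | a10
    · exact neg23 d hd (by linarith) (by linarith) hC
    have c10 := g7 a10
    rcases lt_or_ge (d ^ 2) (2 / 11) with a11 | a11
    · exact neg22 d hd (by linarith) (by linarith) hC
    have c11 := lt_of_le_of_ne (g8 a11) (Ne.symm p5)
    rcases lt_or_ge (d ^ 2) (1 / 5) with a12 | a12
    · exact neg20 d hd (by linarith) (by linarith) hC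
    have c12 := g9 a12
    rcases lt_or_ge (d ^ 2) (4 / 19) with a13 | a13
    · exact neg19 d hd (by linarith) (by linarith) hC
    have c13 := p6 a13
    have c14 := g10 c13
    rcases lt_or_ge (d ^ 2) (2 / 7) with a14 | a14
    · exact neg14 d hd (by linarith) (by linarith) hC
    have c15 := p7 (g11 a14)
    have c16 := p8 (g12 c15)
    have c17 := g13 c16
    linarith
  · intro h
    apply coverable_pos d hd
    rcases h with (((((((h | h) | h) | h) | h) | h) | h) | h) | h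
    · exact Or.inr (Or.inr (Or.inr (Or.inr (Or.inr (Or.inr (Or.inr (Or.inr h)))))))
    · exact Or.inr (Or.inr (Or.inr (Or.inr (Or.inr (Or.inr (Or.inr (Or.inl h)))))))
    · exact Or.inr (Or.inr (Or.inr (Or.inr (Or.inr (Or.inr (Or.inl h))))))
    · exact Or.inr (Or.inr (Or.inr (Or.inr (Or.inr (Or.inl h)))))
    · exact Or.inr (Or.inr (Or.inr (Or.inr (Or.inl h))))
    · exact Or.inr (Or.inr (Or.inr (Or.inl h)))
    · exact Or.inr (Or.inr (Or.inl h))
    · exact Or.inr (Or.inl h)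
    · exact Or.inl h

end Pool.Agent.Results.MP_962d12_co.Classification
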